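import Pool.Agent.Helper94.KC.GoalsC

set_option autoImplicit false

namespace Pool.Agent.Helper64.KC

open scoped Classical
open Finset
open Pool.Agent.Helper94.KC

theorem dc {α β : Type} (s : Finset α) (t : Finset β) (r : α → β → Prop)
    [∀ a, DecidablePred (fun b => r a b)] [∀ b, DecidablePred (fun a => r a b)] :
    ∑ a ∈ s, (t.filter (fun b => r a b)).card = ∑ b ∈ t, (s.filter (fun a => r a b)).card := by
  have h := Finset.sum_card_bipartiteAbove_eq_sum_card_bipartiteBelow (s := s) (t := t) r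
  unfold bipartiteAbove bipartiteBelow at h
  convert h

theorem deg_tri {V : Type} [Fintype V] (T : Finset (Finset V)) (hT : Surf T) (y : V) :
    (T.filter (fun t => y ∈ t)).card = dg T y := by
  have h := dc (univ.filter (fun u => (sk T).Adj y u)) (T.filter (fun t => y ∈ t))
    (fun u t => u ∈ t)
  have h1 : ∀ u ∈ univ.filter (fun u => (sk T).Adj y u),
      ((T.filter (fun t => y ∈ t)).filter (fun t => u ∈ t)).card = 2 := by
    intro u hu
    rw [mem_filter] at hu
    rw [filter_filter]
    exact hT.two y u hu.2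
  have h2 : ∀ t ∈ T.filter (fun t => y ∈ t),
      ((univ.filter (fun u => (sk T).Adj y u)).filter (fun u => u ∈ t)).card = 2 := by
    intro t ht
    rw [mem_filter] at ht
    have h3 : (univ.filter (fun u => (sk T).Adj y u)).filter (fun u => u ∈ t) = t.erase y := by
      ext u
      simp only [mem_filter, mem_univ, true_and, mem_erase]
      constructor
      · rintro ⟨h4, h5⟩
        exact ⟨fun h => h4.1 h.symm, h5⟩
      · rintro ⟨h4, h5⟩
        exact ⟨⟨fun h => h4 h.symm, t, ht.1, ht.2, h5⟩, h5⟩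
    rw [h3, card_erase_of_mem ht.2, hT.card t ht.1]
  rw [sum_congr rfl h1, sum_congr rfl h2, sum_const, sum_const, smul_eq_mul, smul_eq_mul] at h
  have h5 : dg T y = (univ.filter (fun u => (sk T).Adj y u)).card := rfl
  omega

theorem bd_sub {V : Type} [Fintype V] (T D : Finset (Finset V)) : bd T D ⊆ ed D := by
  intro e he
  rw [bd, mem_filter] at he
  have h1 : (D.filter (fun t => e ⊆ t)).Nonempty := by
    rw [← card_pos]
    exact he.2.pos
  obtain ⟨t, ht⟩ := h1
  rw [mem_filter] at ht
  have h2 := he.1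
  rw [ed, mem_filter] at h2 ⊢
  exact ⟨h2.1, h2.2.1, t, ht.1, ht.2⟩

theorem edge_count {V : Type} [Fintype V] (T D : Finset (Finset V)) (hT : Surf T) (hDT : D ⊆ T) :
    3 * D.card + (bd T D).card = 2 * (ed D).card := by
  have h := dc (ed D) D (fun e t => e ⊆ t)
  have h2 : ∀ t ∈ D, ((ed D).filter (fun e => e ⊆ t)).card = 3 := by
    intro t ht
    have h3 : (ed D).filter (fun e => e ⊆ t) = powersetCard 2 t := by
      ext e
      rw [mem_filter, mem_powersetCard, ed, mem_filter]
      constructor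
      · rintro ⟨⟨_, h4, _⟩, h5⟩
        exact ⟨h5, h4⟩
      · rintro ⟨h4, h5⟩
        exact ⟨⟨mem_univ _, h5, t, ht, h4⟩, h4⟩
    rw [h3, card_powersetCard, hT.card t (hDT ht)]
    rfl
  have h1 : ∀ e ∈ ed D, (D.filter (fun t => e ⊆ t)).card + (if e ∈ bd T D then 1 else 0) = 2 := by
    intro e he
    have he' := he
    rw [ed, mem_filter] at he'
    obtain ⟨-, hc, t, ht, het⟩ := he'
    obtain ⟨u, v, huv, rfl⟩ := card_eq_two.1 hc
    have hu : u ∈ t := het (by simp)
    have hv : v ∈ t := het (by simp)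
    have htwo := hT.two u v ⟨huv, t, hDT ht, hu, hv⟩
    have hle : (D.filter (fun t => ({u, v} : Finset V) ⊆ t)).card ≤ 2 := by
      rw [← htwo]
      refine card_le_card fun s hs => ?_
      rw [mem_filter] at hs ⊢
      exact ⟨hDT hs.1, hs.2 (by simp), hs.2 (by simp)⟩
    have hge : 1 ≤ (D.filter (fun t => ({u, v} : Finset V) ⊆ t)).card := by
      rw [Nat.one_le_iff_ne_zero, ← Nat.pos_iff_ne_zero, card_pos]
      exact ⟨t, mem_filter.2 ⟨ht, het⟩⟩
    have hed : ({u, v} : Finset V) ∈ ed T := by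
      rw [ed, mem_filter]
      exact ⟨mem_univ _, hc, t, hDT ht, het⟩
    have hbd : ({u, v} : Finset V) ∈ bd T D ↔
        Odd (D.filter (fun t => ({u, v} : Finset V) ⊆ t)).card := by
      rw [bd, mem_filter]
      exact ⟨fun h => h.2, fun h => ⟨hed, h⟩⟩
    generalize (D.filter (fun t => ({u, v} : Finset V) ⊆ t)).card = k at hle hge hbd ⊢
    rcases (by omega : k = 1 ∨ k = 2) with rfl | rfl
    · rw [if_pos (hbd.2 odd_one)]
    · rw [if_neg (fun h => by
        have := hbd.1 h
        exact absurd this (by decide))]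
  have h3 : ∑ e ∈ ed D, (if e ∈ bd T D then 1 else 0) = (bd T D).card := by
    rw [← card_filter]
    congr 1
    ext e
    rw [mem_filter]
    exact ⟨fun h => h.2, fun h => ⟨bd_sub T D h, h⟩⟩
  have h4 := sum_congr (rfl : ed D = ed D) h1
  rw [sum_add_distrib, h3, h, sum_congr rfl h2, sum_const, sum_const, smul_eq_mul,
    smul_eq_mul] at h4
  omega

theorem vert_count {V : Type} [Fintype V] (T D : Finset (Finset V)) (hT : Surf T) (hDT : D ⊆ T) :
    ∑ v ∈ vs D, (D.filter (fun t => v ∈ t)).card = 3 * D.card := by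
  have h := dc (vs D) D (fun v t => v ∈ t)
  have h2 : ∀ t ∈ D, ((vs D).filter (fun v => v ∈ t)).card = 3 := by
    intro t ht
    have h3 : (vs D).filter (fun v => v ∈ t) = t := by
      ext v
      rw [mem_filter, vs, mem_filter]
      exact ⟨fun h => h.2, fun h => ⟨⟨mem_univ _, t, ht, h⟩, h⟩⟩
    rw [h3]
    exact hT.card t (hDT ht)
  rw [h, sum_congr rfl h2, sum_const, smul_eq_mul, mul_comm]

theorem gb (hEV : StmtEV) (hDB : StmtDB) (_hL1 : StmtL1) : StmtGB := by
  intro V _ T hT h6 x w hw D hD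
  obtain ⟨-, -, -, h4, -, -⟩ := hEV V T hT
  obtain ⟨-, hcard, hsub⟩ := h4 x w hw
  have hlen : 3 ≤ w.length := hw.three_le_length
  have hne : (wed w).Nonempty := by
    rw [← card_pos, hcard]
    omega
  obtain ⟨-, hdb⟩ := hDB V T hT D (wed w) hD hne
  have hmem : ∀ v ∈ w.support, ∃ e ∈ wed w, v ∈ e := by
    intro v hv
    have hnil : ¬ w.Nil := hw.not_nil
    obtain ⟨u, hu⟩ : ∃ u, s(v, u) ∈ w.edges := by
      obtain ⟨e, he, hve⟩ := (SimpleGraph.Walk.mem_support_iff_exists_mem_edges_of_not_nil hnil).1 hv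
      obtain ⟨u, rfl⟩ := hve
      exact ⟨u, he⟩
    refine ⟨s(v, u).toFinset, ?_, ?_⟩
    · rw [wed, List.mem_toFinset, List.mem_map]
      exact ⟨_, hu, rfl⟩
    · rw [Sym2.mem_toFinset]
      exact Sym2.mem_mk_left v u
  have h1 : ∀ v ∈ w.support, ∃ t ∈ D, v ∈ t := by
    intro v hv
    obtain ⟨e, he, hve⟩ := hmem v hv
    rw [← hD.bdy] at he
    have h := bd_sub T D he
    rw [ed, mem_filter] at h
    obtain ⟨-, -, t, ht, het⟩ := h
    exact ⟨t, ht, het hve⟩
  refine ⟨h1, ?_⟩
  have hS : w.support.toFinset ⊆ vs D := by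
    intro v hv
    rw [List.mem_toFinset] at hv
    rw [vs, mem_filter]
    exact ⟨mem_univ _, h1 v hv⟩
  have hScard : w.support.toFinset.card ≤ w.length := by
    have h2 : w.support.toFinset ⊆ w.support.tail.toFinset := by
      intro v hv
      rw [List.mem_toFinset] at hv ⊢
      rw [SimpleGraph.Walk.mem_support_iff] at hv
      rcases hv with rfl | hv
      · exact SimpleGraph.Walk.end_mem_tail_support hw.not_nil
      · exact hv
    refine (card_le_card h2).trans ((List.toFinset_card_le _).trans ?_)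
    rw [List.length_tail, SimpleGraph.Walk.length_support]
    omega
  have hint : ∀ v ∈ vs D \ w.support.toFinset, 6 ≤ (D.filter (fun t => v ∈ t)).card := by
    intro v hv
    rw [mem_sdiff, vs, mem_filter, List.mem_toFinset] at hv
    obtain ⟨⟨-, t, ht, hvt⟩, hv2⟩ := hv
    have hz : ∀ e ∈ wed w, v ∉ e := by
      intro e he hve
      rw [wed, List.mem_toFinset, List.mem_map] at he
      obtain ⟨s, hs, rfl⟩ := he
      rw [Sym2.mem_toFinset] at hve
      obtain ⟨u, rfl⟩ := hve
      exact hv2 (w.fst_mem_support_of_mem_edges hs)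
    have h2 : T.filter (fun t => v ∈ t) ⊆ D.filter (fun t => v ∈ t) := by
      intro t' ht'
      rw [mem_filter] at ht' ⊢
      exact ⟨hdb v hz t (hD.sub ht) t' ht'.1 hvt ht'.2 ht, ht'.2⟩
    calc 6 ≤ dg T v := h6 v
      _ = (T.filter (fun t => v ∈ t)).card := (deg_tri T hT v).symm
      _ ≤ _ := card_le_card h2
  have hec := edge_count T D hT hD.sub
  rw [hD.bdy, hcard] at hec
  have hvc := vert_count T D hT hD.sub
  have heu := hD.euler
  rw [← sum_sdiff hS] at hvc
  have hge : 6 * (vs D \ w.support.toFinset).card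
      ≤ ∑ v ∈ vs D \ w.support.toFinset, (D.filter (fun t => v ∈ t)).card := by
    have h := card_nsmul_le_sum _ _ 6 hint
    rw [smul_eq_mul, mul_comm] at h
    exact h
  have hcs : (vs D \ w.support.toFinset).card + w.support.toFinset.card = (vs D).card :=
    card_sdiff_add_card_eq_card hS
  rw [sum_sub_distrib, sum_const, nsmul_eq_mul, ← Nat.cast_sum]
  generalize (vs D \ w.support.toFinset).card = ni at *
  generalize ∑ v ∈ vs D \ w.support.toFinset, (D.filter (fun t => v ∈ t)).card = A at *
  generalize ∑ v ∈ w.support.toFinset, (D.filter (fun t => v ∈ t)).card = B at *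
  generalize w.support.toFinset.card = s at *
  generalize (vs D).card = vv at *
  generalize (ed D).card = ee at *
  generalize D.card = dd at *
  generalize w.length = ll at *
  omega

end Pool.Agent.Helper64.KC
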